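import Pool.Agent.Helper8.SR.GoodGen
import Pool.Agent.Helper10.SR.Residues

set_option autoImplicit false
open scoped Pointwise
open Polynomial Pool.Agent.Helper54.PW

namespace Pool.Agent.Helper54.SR

variable {k F : Type} [Field k] [IsAlgClosed k] [Field F] [Algebra (RatFunc k) F]
  [FiniteDimensional (RatFunc k) F] [IsGalois (RatFunc k) F]

/-- SR-D13b -/
theorem exists_good_generator (hunr : UnrLine k F) (A₁ A₂ : ValuationSubring F)
    (h₁ : IsPl k A₁) (h₂ : IsPl k A₂) (c₁ c₂ : k) (hc₁ : Over k A₁ c₁) (hc₂ : Over k A₂ c₂) :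
    ∃ (n : ℕ) (f : k[X][X]) (y : F) (η₁ η₂ : Fin n → k) (i₁ i₂ : Fin n), f.Monic ∧
      f.natDegree = n ∧ Irreducible f ∧ (∀ B : k[X][X], eval₂ (pk k F) y B = 0 ↔ f ∣ B) ∧
      (∀ A, IsPl k A → tX k F ∈ A → y ∈ A) ∧
      Function.Injective η₁ ∧ Function.Injective η₂ ∧
      f.map (Polynomial.evalRingHom c₁) = ∏ i, (X - C (η₁ i)) ∧
      f.map (Polynomial.evalRingHom c₂) = ∏ i, (X - C (η₂ i)) ∧
      (∀ A, IsPl k A → Over k A c₁ → (y - co k F (η₁ i₁) ∈ A.nonunits ↔ A = A₁)) ∧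
      (∀ A, IsPl k A → Over k A c₂ → (y - co k F (η₂ i₂) ∈ A.nonunits ↔ A = A₂)) ∧
      (y - co k F (η₁ i₁)) / (tX k F - co k F c₁) ∈ A₁ ∧
      (y - co k F (η₂ i₂)) / (tX k F - co k F c₂) ∈ A₂ :=
  exists_good_generator_of (fun S hS c => exists_residues S hS c) hunr A₁ A₂ h₁ h₂ c₁ c₂ hc₁ hc₂

end Pool.Agent.Helper54.SR
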