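import Pool.Agent.Helper54.SR.Defs
import Pool.Agent.Helper18.PW.Places1
import Pool.Agent.Helper79.PW.Transitive

/-!
# SR2-D13b: a good generator of `F` over `k(X)`

`exists_good_generator_of` is the statement `exists_good_generator` with `exists_residues` (SR-D13a) as a
hypothesis.
-/

set_option autoImplicit false
open scoped Pointwise
open Polynomial Pool.Agent.Helper54.PW

namespace Pool.Agent.Helper54.SR

section h8gg

variable {k F : Type} [Field k] [Field F] [Algebra (RatFunc k) F]

private theorem gg_co_sub (a b : k) : co k F (a - b) = co k F a - co k F b := by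
  simp [co]

private theorem gg_co_unit (A : ValuationSubring F) (hA : IsPl k A) {c : k}
    (h : co k F c ∈ A.nonunits) : c = 0 := by
  by_contra hc
  rw [ValuationSubring.mem_nonunits_iff_or] at h
  rcases h with h | h
  · exact (((algebraMap (RatFunc k) F).comp (algebraMap k (RatFunc k))).injective.ne hc)
      (by rw [map_zero]; exact h)
  · apply h
    have h1 : (co k F c)⁻¹ = co k F c⁻¹ := by
      unfold co
      rw [map_inv₀, map_inv₀]
    rw [h1]
    exact hA.2 _

private theorem gg_add (A : ValuationSubring F) {x y : F} (hx : x ∈ A.nonunits)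
    (hy : y ∈ A.nonunits) : x + y ∈ A.nonunits := by
  rw [ValuationSubring.mem_nonunits_iff] at *
  exact A.valuation.map_add_lt hx hy

private theorem gg_sub (A : ValuationSubring F) {x y : F} (hx : x ∈ A.nonunits)
    (hy : y ∈ A.nonunits) : x - y ∈ A.nonunits := by
  rw [ValuationSubring.mem_nonunits_iff] at *
  exact A.valuation.map_sub_lt hx hy

private theorem gg_mul (A : ValuationSubring F) {x y : F} (hx : x ∈ A)
    (hy : y ∈ A.nonunits) : x * y ∈ A.nonunits := by
  rw [ValuationSubring.mem_nonunits_iff] at *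
  rw [map_mul]
  calc A.valuation x * A.valuation y ≤ 1 * A.valuation y :=
        mul_le_mul_left ((A.valuation_le_one_iff x).2 hx) _
    _ = A.valuation y := one_mul _
    _ < 1 := hy

private theorem gg_eq_of (A : ValuationSubring F) (hA : IsPl k A) {x : F} {a b : k}
    (ha : x - co k F a ∈ A.nonunits) (hb : x - co k F b ∈ A.nonunits) : a = b := by
  have h1 : co k F (b - a) ∈ A.nonunits := by
    have h2 := gg_sub A ha hb
    rw [gg_co_sub]
    have e : x - co k F a - (x - co k F b) = co k F b - co k F a := by ring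
    rwa [e] at h2
  exact (sub_eq_zero.1 (gg_co_unit A hA h1)).symm

private theorem gg_smul (A : ValuationSubring F) (σ : F ≃ₐ[RatFunc k] F) {x : F} :
    x ∈ (σ • A).nonunits ↔ σ⁻¹ x ∈ A.nonunits := by
  rw [ValuationSubring.mem_nonunits_iff_or, ValuationSubring.mem_nonunits_iff_or,
    ValuationSubring.mem_pointwise_smul_iff_inv_smul_mem]
  have e1 : σ⁻¹ • x⁻¹ = (σ⁻¹ x)⁻¹ := map_inv₀ (σ⁻¹ : F ≃ₐ[RatFunc k] F) x
  rw [e1, EmbeddingLike.map_eq_zero_iff]

private theorem gg_co_fix (σ : F ≃ₐ[RatFunc k] F) (c : k) : σ (co k F c) = co k F c :=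
  σ.commutes _

private theorem gg_tX_fix (σ : F ≃ₐ[RatFunc k] F) : σ (tX k F) = tX k F :=
  σ.commutes _

private theorem gg_isPl_smul (A : ValuationSubring F) (hA : IsPl k A) (σ : F ≃ₐ[RatFunc k] F) :
    IsPl k (σ • A) := by
  refine ⟨fun h => hA.1 ?_, fun c => ?_⟩
  · rw [eq_top_iff]
    intro x _
    have h1 : σ • x ∈ σ • A := by
      rw [h]
      exact ValuationSubring.mem_top _
    exact ValuationSubring.smul_mem_pointwise_smul_iff.1 h1
  · rw [ValuationSubring.mem_pointwise_smul_iff_inv_smul_mem]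
    have e : σ⁻¹ • co k F c = co k F c := gg_co_fix σ⁻¹ c
    rw [e]
    exact hA.2 c

private theorem gg_over_smul (A : ValuationSubring F) {c : k} (hA : Over k A c)
    (σ : F ≃ₐ[RatFunc k] F) : Over k (σ • A) c := by
  unfold Over at *
  rw [gg_smul, map_sub, gg_co_fix, gg_tX_fix]
  exact hA

private theorem gg_tX_mem (A : ValuationSubring F) (hA : IsPl k A) {c : k} (h : Over k A c) :
    tX k F ∈ A := by
  have h1 : tX k F - co k F c ∈ A := ValuationSubring.nonunits_le h
  have h2 := A.add_mem _ _ h1 (hA.2 c)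
  rwa [sub_add_cancel] at h2

/-- two places of `k(X)` over the same point are equal -/
private theorem gg_base_unique (B : ValuationSubring (RatFunc k))
    (hB : ∀ c : k, algebraMap k (RatFunc k) c ∈ B) {c : k}
    (hc : RatFunc.X - algebraMap k (RatFunc k) c ∈ B.nonunits) (x : RatFunc k) :
    x ∈ B ↔ x.denom.eval c ≠ 0 := by
  have hX : (RatFunc.X : RatFunc k) ∈ B := by
    have h2 := B.add_mem _ _ (ValuationSubring.nonunits_le hc) (hB c)
    rwa [sub_add_cancel] at h2
  have hpol : ∀ p : k[X], algebraMap k[X] (RatFunc k) p ∈ B := by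
    intro p
    induction p using Polynomial.induction_on' with
    | add p q hp hq => rw [map_add]; exact B.add_mem _ _ hp hq
    | monomial n a =>
      rw [← Polynomial.C_mul_X_pow_eq_monomial, map_mul, map_pow, RatFunc.algebraMap_C,
        RatFunc.algebraMap_X]
      exact B.mul_mem _ _ (hB a) (pow_mem hX n)
  have hroot : ∀ p : k[X], p.eval c = 0 → algebraMap k[X] (RatFunc k) p ∈ B.nonunits := by
    intro p hp
    obtain ⟨q, rfl⟩ := Polynomial.dvd_iff_isRoot.2 hp
    rw [map_mul, mul_comm]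
    have e : algebraMap k[X] (RatFunc k) (X - C c) = RatFunc.X - algebraMap k (RatFunc k) c := by
      rw [map_sub, RatFunc.algebraMap_X, RatFunc.algebraMap_C]
      rfl
    rw [e, ValuationSubring.mem_nonunits_iff, map_mul]
    rw [ValuationSubring.mem_nonunits_iff] at hc
    calc B.valuation _ * B.valuation _ ≤ 1 * B.valuation _ :=
          mul_le_mul_left ((B.valuation_le_one_iff _).2 (hpol q)) _
      _ = B.valuation _ := one_mul _
      _ < 1 := hc
  have hunit : ∀ p : k[X], p.eval c ≠ 0 → B.valuation (algebraMap k[X] (RatFunc k) p) = 1 := by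
    intro p hp
    have h1 : algebraMap k[X] (RatFunc k) (p - C (p.eval c)) ∈ B.nonunits :=
      hroot _ (by simp)
    have h2 : B.valuation (algebraMap k[X] (RatFunc k) (C (p.eval c))) = 1 := by
      apply le_antisymm ((B.valuation_le_one_iff _).2 (hpol _))
      have h3 : (algebraMap k[X] (RatFunc k) (C (p.eval c)))⁻¹ ∈ B := by
        have e : (algebraMap k[X] (RatFunc k) (C (p.eval c)))⁻¹ =
            algebraMap k (RatFunc k) (p.eval c)⁻¹ := by
          rw [map_inv₀]
          rfl
        rw [e]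
        exact hB _
      have h4 := (B.valuation_le_one_iff _).2 h3
      rw [map_inv₀] at h4
      have h5 : 0 < B.valuation (algebraMap k[X] (RatFunc k) (C (p.eval c))) := by
        rw [zero_lt_iff, _root_.map_ne_zero]
        exact (map_ne_zero_iff _ (RatFunc.algebraMap_injective k)).2
          (fun h => hp (Polynomial.C_eq_zero.1 h))
      exact (inv_le_one₀ h5).1 h4
    have h3 : algebraMap k[X] (RatFunc k) p = algebraMap k[X] (RatFunc k) (p - C (p.eval c)) +
        algebraMap k[X] (RatFunc k) (C (p.eval c)) := by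
      rw [← map_add, sub_add_cancel]
    rw [h3, ← h2]
    rw [ValuationSubring.mem_nonunits_iff, ← h2] at h1
    exact Valuation.map_add_eq_of_lt_right _ h1
  have hx : x = algebraMap k[X] (RatFunc k) x.num / algebraMap k[X] (RatFunc k) x.denom :=
    (RatFunc.num_div_denom x).symm
  constructor
  · intro hxB hd
    have hn : x.num.eval c ≠ 0 := by
      intro hn
      obtain ⟨a, b, hab⟩ := x.isCoprime_num_denom
      have h1 := congrArg (Polynomial.eval c) hab
      rw [eval_add, eval_mul, eval_mul, hn, hd, mul_zero, mul_zero, add_zero, eval_one] at h1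
      exact zero_ne_one h1
    have h1 := hunit _ hn
    have h2 : algebraMap k[X] (RatFunc k) x.num = x * algebraMap k[X] (RatFunc k) x.denom := by
      refine (div_eq_iff ?_).1 hx.symm
      exact (map_ne_zero_iff _ (RatFunc.algebraMap_injective k)).2 x.denom_ne_zero
    rw [h2, map_mul] at h1
    have h3 : B.valuation (algebraMap k[X] (RatFunc k) x.denom) < 1 :=
      (ValuationSubring.mem_nonunits_iff _).1 (hroot _ hd)
    have h4 : B.valuation x * B.valuation (algebraMap k[X] (RatFunc k) x.denom) < 1 := by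
      calc _ ≤ 1 * B.valuation (algebraMap k[X] (RatFunc k) x.denom) :=
            mul_le_mul_left ((B.valuation_le_one_iff x).2 hxB) _
        _ < 1 := by rw [one_mul]; exact h3
    rw [h1] at h4
    exact lt_irrefl _ h4
  · intro hd
    rw [← B.valuation_le_one_iff, hx, map_div₀, hunit _ hd, div_one, B.valuation_le_one_iff]
    exact hpol _

variable [IsAlgClosed k] [FiniteDimensional (RatFunc k) F] [IsGalois (RatFunc k) F]

private theorem gg_conj (A A' : ValuationSubring F) (hA : IsPl k A) (hA' : IsPl k A') {c : k}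
    (h : Over k A c) (h' : Over k A' c) : ∃ σ : F ≃ₐ[RatFunc k] F, σ • A = A' := by
  apply Transitive.main
  ext x
  have key : ∀ A : ValuationSubring F, IsPl k A → Over k A c →
      (x ∈ A.comap (algebraMap (RatFunc k) F) ↔ x.denom.eval c ≠ 0) := by
    intro A hA h
    refine gg_base_unique (A.comap (algebraMap (RatFunc k) F)) (fun c => hA.2 c) (c := c) ?_ x
    rw [ValuationSubring.mem_nonunits_iff_or]
    unfold Over at h
    rw [ValuationSubring.mem_nonunits_iff_or] at h
    rcases h with h | h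
    · left
      have e : algebraMap (RatFunc k) F (RatFunc.X - algebraMap k (RatFunc k) c) = 0 := by
        rw [map_sub]
        exact h
      exact (map_eq_zero _).1 e
    · right
      intro h1
      apply h
      have e : (tX k F - co k F c)⁻¹ =
          algebraMap (RatFunc k) F ((RatFunc.X - algebraMap k (RatFunc k) c)⁻¹) := by
        rw [map_inv₀, map_sub]
        rfl
      rw [e]
      exact h1
  rw [key A hA h, key A' hA' h']

/-- the residue homomorphism of a place -/
private theorem gg_res (A : ValuationSubring F) (hA : IsPl k A) :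
    ∃ r : A →+* k, ∀ x : A, (x : F) - co k F (r x) ∈ A.nonunits := by
  let _ : Algebra k F := ((algebraMap (RatFunc k) F).comp (algebraMap k (RatFunc k))).toAlgebra
  have : IsScalarTower k (RatFunc k) F := IsScalarTower.of_algebraMap_eq fun _ => rfl
  have hF : FF k F := ff_of_algebraic k F
  have hres : ∀ x : A, ∃ c : k, (x : F) - co k F c ∈ A.nonunits := fun x =>
    residue hF A hA x x.2
  choose r hr using hres
  have huniq : ∀ (x : A) (c : k), (x : F) - co k F c ∈ A.nonunits → r x = c := fun x c h =>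
    gg_eq_of A hA (hr x) h
  have hmem : ∀ x : A, co k F (r x) ∈ A := fun x => hA.2 _
  refine ⟨{ toFun := r, map_one' := ?_, map_mul' := ?_, map_zero' := ?_, map_add' := ?_ }, hr⟩
  · apply huniq
    have e : ((1 : A) : F) - co k F 1 = 0 := by simp [co]
    rw [e]
    exact A.nonunits.zero_mem
  · intro x y
    apply huniq
    have e : ((x * y : A) : F) - co k F (r x * r y) =
        (x : F) * ((y : F) - co k F (r y)) + co k F (r y) * ((x : F) - co k F (r x)) := by
      have e1 : co k F (r x * r y) = co k F (r x) * co k F (r y) := by simp [co]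
      have e2 : ((x * y : A) : F) = (x : F) * (y : F) := rfl
      rw [e1, e2]
      ring
    rw [e]
    exact gg_add A (gg_mul A x.2 (hr y)) (gg_mul A (hmem y) (hr x))
  · apply huniq
    have e : ((0 : A) : F) - co k F 0 = 0 := by simp [co]
    rw [e]
    exact A.nonunits.zero_mem
  · intro x y
    apply huniq
    have e : ((x + y : A) : F) - co k F (r x + r y) =
        ((x : F) - co k F (r x)) + ((y : F) - co k F (r y)) := by
      have e1 : co k F (r x + r y) = co k F (r x) + co k F (r y) := by simp [co]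
      have e2 : ((x + y : A) : F) = (x : F) + (y : F) := rfl
      rw [e1, e2]
      ring
    rw [e]
    exact gg_add A (hr x) (hr y)

private theorem gg_dist (hunr : UnrLine k F) (A : ValuationSubring F) (hA : IsPl k A) (c : k)
    (hc : Over k A c) (cc : ValuationSubring F → k)
    (hcc : ∀ σ τ : F ≃ₐ[RatFunc k] F, cc (σ • A) = cc (τ • A) → σ • A = τ • A)
    (σ τ : F ≃ₐ[RatFunc k] F) (h : cc (σ⁻¹ • A) = cc (τ⁻¹ • A)) : σ = τ := by
  have h1 := hcc _ _ h
  have h2 : (τ * σ⁻¹) • A = A := by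
    rw [mul_smul, h1, smul_inv_smul]
  have h3 := hunr A hA (gg_tX_mem A hA hc) _ h2
  exact (mul_inv_eq_one.1 h3).symm

private theorem gg_val (A : ValuationSubring F) (y : F) (cc : ValuationSubring F → k)
    (hyc : ∀ σ : F ≃ₐ[RatFunc k] F, y - co k F (cc (σ • A)) ∈ (σ • A).nonunits)
    (σ : F ≃ₐ[RatFunc k] F) : σ y - co k F (cc (σ⁻¹ • A)) ∈ A.nonunits := by
  have h1 := hyc σ⁻¹
  rw [gg_smul, inv_inv, map_sub, gg_co_fix] at h1
  exact h1

/-- the ring homomorphism of constants -/
private noncomputable def ggc (k F : Type) [Field k] [Field F] [Algebra (RatFunc k) F] : k →+* F :=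
  (algebraMap (RatFunc k) F).comp (algebraMap k (RatFunc k))

private theorem gg_pk_C (a : k) : pk k F (C a) = co k F a := by
  unfold pk co
  rw [RingHom.comp_apply]
  rfl

private theorem gg_pk_X : pk k F X = tX k F := by
  unfold pk tX
  rw [RingHom.comp_apply, RatFunc.algebraMap_X]

private theorem gg_pk_mem (A : ValuationSubring F) (hA : IsPl k A) (hX : tX k F ∈ A) (p : k[X]) :
    pk k F p ∈ A := by
  induction p using Polynomial.induction_on' with
  | add p q hp hq => rw [map_add]; exact A.add_mem _ _ hp hq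
  | monomial n a =>
    rw [← Polynomial.C_mul_X_pow_eq_monomial, map_mul, map_pow, gg_pk_C, gg_pk_X]
    exact A.mul_mem _ _ (hA.2 a) (pow_mem hX n)

private theorem gg_diff (A : ValuationSubring F) (hA : IsPl k A) (hX : tX k F ∈ A) (c : k) {y : F}
    (hy : y ∈ A) (f : k[X][X]) : ∃ z ∈ A, f.eval₂ (pk k F) y -
      (f.map (evalRingHom c)).eval₂ (ggc k F) y = (tX k F - co k F c) * z := by
  induction f using Polynomial.induction_on' with
  | add p q hp hq =>
    obtain ⟨z, hz, e⟩ := hp
    obtain ⟨w, hw, e'⟩ := hq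
    refine ⟨z + w, A.add_mem _ _ hz hw, ?_⟩
    rw [Polynomial.map_add, eval₂_add, eval₂_add, mul_add, ← e, ← e']
    ring
  | monomial n p =>
    obtain ⟨q, hq⟩ : (X - C c) ∣ p - C (p.eval c) := Polynomial.dvd_iff_isRoot.2 (by simp)
    refine ⟨pk k F q * y ^ n, A.mul_mem _ _ (gg_pk_mem A hA hX q) (pow_mem hy n), ?_⟩
    rw [Polynomial.map_monomial, eval₂_monomial, eval₂_monomial]
    have h1 : pk k F p - ggc k F (p.eval c) = (tX k F - co k F c) * pk k F q := by
      have h2 := congrArg (pk k F) hq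
      rw [map_sub, map_mul, map_sub, gg_pk_C, gg_pk_C, gg_pk_X] at h2
      exact h2
    rw [coe_evalRingHom, ← sub_mul, h1]
    ring

private theorem gg_side (hunr : UnrLine k F) (A : ValuationSubring F) (hA : IsPl k A) (c : k)
    (hc : Over k A c) (y : F) (hy : ∀ B, IsPl k B → tX k F ∈ B → y ∈ B)
    (cc : ValuationSubring F → k)
    (hcc : ∀ σ τ : F ≃ₐ[RatFunc k] F, cc (σ • A) = cc (τ • A) → σ • A = τ • A)
    (hyc : ∀ σ : F ≃ₐ[RatFunc k] F, y - co k F (cc (σ • A)) ∈ (σ • A).nonunits)
    (f : k[X][X]) {n : ℕ} (e : Fin n ≃ (F ≃ₐ[RatFunc k] F))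
    (hf : f.map (pk k F) = ∏ j, (X - C ((e j) y))) :
    Function.Injective (fun j => cc ((e j)⁻¹ • A)) ∧
    f.map (evalRingHom c) = ∏ j, (X - C (cc ((e j)⁻¹ • A))) ∧
    (∀ B, IsPl k B → Over k B c →
      (y - co k F (cc ((e (e.symm 1))⁻¹ • A)) ∈ B.nonunits ↔ B = A)) ∧
    (y - co k F (cc ((e (e.symm 1))⁻¹ • A))) / (tX k F - co k F c) ∈ A := by
  classical
  have hX := gg_tX_mem A hA hc
  have hinj : Function.Injective (fun j => cc ((e j)⁻¹ • A)) := fun j j' h =>
    e.injective (gg_dist hunr A hA c hc cc hcc _ _ h)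
  have hmem : ∀ σ : F ≃ₐ[RatFunc k] F, σ y ∈ A := by
    intro σ
    have h1 := hy _ (gg_isPl_smul A hA σ⁻¹) (gg_tX_mem _ (gg_isPl_smul A hA σ⁻¹)
      (gg_over_smul A hc σ⁻¹))
    exact ValuationSubring.mem_inv_pointwise_smul_iff.1 h1
  have hfc : f.map (evalRingHom c) = ∏ j, (X - C (cc ((e j)⁻¹ • A))) := by
    obtain ⟨r, hr⟩ := gg_res A hA
    let pkA : k[X] →+* A := (pk k F).codRestrict A.toSubring (gg_pk_mem A hA hX)
    have hcomp : (A.subtype).comp pkA = pk k F := by
      ext x <;> rfl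
    have h1 : f.map pkA = ∏ j, (X - C (⟨e j y, hmem _⟩ : A)) := by
      apply Polynomial.map_injective A.subtype Subtype.val_injective
      rw [Polynomial.map_map, hcomp, hf, Polynomial.map_prod]
      refine Finset.prod_congr rfl fun j _ => ?_
      rw [Polynomial.map_sub, Polynomial.map_X, Polynomial.map_C]
      rfl
    have h2 : r.comp pkA = evalRingHom c := by
      apply Polynomial.ringHom_ext
      · intro a
        rw [RingHom.comp_apply, coe_evalRingHom, eval_C]
        refine gg_eq_of A hA (hr (pkA (C a))) ?_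
        have e1 : ((pkA (C a) : A) : F) = co k F a := gg_pk_C a
        rw [e1, sub_self]
        exact A.nonunits.zero_mem
      · rw [RingHom.comp_apply, coe_evalRingHom, eval_X]
        refine gg_eq_of A hA (hr (pkA X)) ?_
        have e1 : ((pkA X : A) : F) = tX k F := gg_pk_X
        rw [e1]
        exact hc
    have h3 := congrArg (Polynomial.map r) h1
    rw [Polynomial.map_map, h2, Polynomial.map_prod] at h3
    rw [h3]
    refine Finset.prod_congr rfl fun j _ => ?_
    rw [Polynomial.map_sub, Polynomial.map_X, Polynomial.map_C]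
    congr 2
    exact gg_eq_of A hA (hr _) (gg_val A y cc hyc (e j))
  have h1 : cc ((e (e.symm 1))⁻¹ • A) = cc A := by
    rw [Equiv.apply_symm_apply, inv_one, one_smul]
  have hyA : y - co k F (cc A) ∈ A.nonunits := by
    have := hyc 1
    rwa [one_smul] at this
  refine ⟨hinj, hfc, ?_, ?_⟩
  · intro B hB hBc
    rw [h1]
    constructor
    · intro h
      obtain ⟨σ, rfl⟩ := gg_conj A B hA hB hc hBc
      have h2 := gg_eq_of _ hB (hyc σ) h
      have h3 := hcc σ 1 (by rw [one_smul]; exact h2)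
      rw [one_smul] at h3
      exact h3
    · rintro rfl
      exact hyA
  · obtain ⟨z, hz, hzz⟩ := gg_diff A hA hX c (hy A hA hX) f
    have e0 : f.eval₂ (pk k F) y = 0 := by
      rw [← Polynomial.eval_map, hf, Polynomial.eval_prod]
      apply Finset.prod_eq_zero (Finset.mem_univ (e.symm 1))
      rw [Equiv.apply_symm_apply]
      simp
    have e1 : (f.map (evalRingHom c)).eval₂ (ggc k F) y =
        ∏ j, (y - co k F (cc ((e j)⁻¹ • A))) := by
      rw [hfc, Polynomial.eval₂_finset_prod]
      refine Finset.prod_congr rfl fun j _ => ?_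
      rw [eval₂_sub, eval₂_X, eval₂_C]
      rfl
    rw [e0, e1, zero_sub, ← Finset.mul_prod_erase _ _ (Finset.mem_univ (e.symm 1))] at hzz
    have hu : ∀ j ∈ Finset.univ.erase (e.symm 1), y - co k F (cc ((e j)⁻¹ • A)) ≠ 0 ∧
        (y - co k F (cc ((e j)⁻¹ • A)))⁻¹ ∈ A := by
      intro j hj
      have h2 : y - co k F (cc ((e j)⁻¹ • A)) ∉ A.nonunits := by
        intro h3
        apply (Finset.mem_erase.1 hj).1
        apply hinj
        show cc ((e j)⁻¹ • A) = cc ((e (e.symm 1))⁻¹ • A)
        rw [h1]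
        exact gg_eq_of A hA h3 hyA
      rw [ValuationSubring.mem_nonunits_iff_or, not_or, not_not] at h2
      exact h2
    have hP : (∏ j ∈ Finset.univ.erase (e.symm 1), (y - co k F (cc ((e j)⁻¹ • A)))) ≠ 0 :=
      Finset.prod_ne_zero_iff.2 fun j hj => (hu j hj).1
    have hP' : (∏ j ∈ Finset.univ.erase (e.symm 1), (y - co k F (cc ((e j)⁻¹ • A))))⁻¹ ∈ A := by
      rw [← Finset.prod_inv_distrib]
      exact prod_mem fun j hj => (hu j hj).2
    have hX0 : tX k F - co k F c ≠ 0 := by
      have e2 : tX k F - co k F c = pk k F (X - C c) := by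
        rw [map_sub, gg_pk_C, gg_pk_X]
      rw [e2]
      unfold pk
      rw [RingHom.comp_apply]
      exact (_root_.map_ne_zero _).2 ((map_ne_zero_iff _ (RatFunc.algebraMap_injective k)).2
        (X_sub_C_ne_zero c))
    have e3 : (y - co k F (cc ((e (e.symm 1))⁻¹ • A))) / (tX k F - co k F c) =
        (-z) * (∏ j ∈ Finset.univ.erase (e.symm 1), (y - co k F (cc ((e j)⁻¹ • A))))⁻¹ := by
      rw [div_eq_iff hX0, mul_assoc, mul_comm, mul_assoc, eq_inv_mul_iff_mul_eq₀ hP]
      linear_combination -hzz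
    rw [e3]
    exact A.mul_mem _ _ (A.neg_mem _ hz) hP'

/-- SR-D13b, from SR-D13a -/
theorem exists_good_generator_of
    (hresid : ∀ (S : Finset (ValuationSubring F)), (∀ A ∈ S, IsPl k A ∧ tX k F ∈ A) →
      ∀ c : ValuationSubring F → k,
      ∃ y : F, (pk k F).IsIntegralElem y ∧ (∀ A, IsPl k A → tX k F ∈ A → y ∈ A) ∧
        ∀ A ∈ S, y - co k F (c A) ∈ A.nonunits)
    (hunr : UnrLine k F) (A₁ A₂ : ValuationSubring F)
    (h₁ : IsPl k A₁) (h₂ : IsPl k A₂) (c₁ c₂ : k) (hc₁ : Over k A₁ c₁) (hc₂ : Over k A₂ c₂) :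
    ∃ (n : ℕ) (f : k[X][X]) (y : F) (η₁ η₂ : Fin n → k) (i₁ i₂ : Fin n), f.Monic ∧
      f.natDegree = n ∧ Irreducible f ∧ (∀ B : k[X][X], eval₂ (pk k F) y B = 0 ↔ f ∣ B) ∧
      (∀ A, IsPl k A → tX k F ∈ A → y ∈ A) ∧
      Function.Injective η₁ ∧ Function.Injective η₂ ∧
      f.map (Polynomial.evalRingHom c₁) = ∏ i, (X - C (η₁ i)) ∧
      f.map (Polynomial.evalRingHom c₂) = ∏ i, (X - C (η₂ i)) ∧
      (∀ A, IsPl k A → Over k A c₁ → (y - co k F (η₁ i₁) ∈ A.nonunits ↔ A = A₁)) ∧
      (∀ A, IsPl k A → Over k A c₂ → (y - co k F (η₂ i₂) ∈ A.nonunits ↔ A = A₂)) ∧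
      (y - co k F (η₁ i₁)) / (tX k F - co k F c₁) ∈ A₁ ∧
      (y - co k F (η₂ i₂)) / (tX k F - co k F c₂) ∈ A₂ := by
  classical
  let S : Finset (ValuationSubring F) :=
    (Finset.univ.image fun σ : F ≃ₐ[RatFunc k] F => σ • A₁) ∪
      (Finset.univ.image fun σ : F ≃ₐ[RatFunc k] F => σ • A₂)
  have hS1 : ∀ σ : F ≃ₐ[RatFunc k] F, σ • A₁ ∈ S := fun σ =>
    Finset.mem_union_left _ (Finset.mem_image_of_mem _ (Finset.mem_univ σ))
  have hS2 : ∀ σ : F ≃ₐ[RatFunc k] F, σ • A₂ ∈ S := fun σ =>
    Finset.mem_union_right _ (Finset.mem_image_of_mem _ (Finset.mem_univ σ))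
  have hS : ∀ A ∈ S, IsPl k A ∧ tX k F ∈ A := by
    intro A hA
    rcases Finset.mem_union.1 hA with h | h
    · obtain ⟨σ, _, rfl⟩ := Finset.mem_image.1 h
      exact ⟨gg_isPl_smul A₁ h₁ σ, gg_tX_mem _ (gg_isPl_smul A₁ h₁ σ) (gg_over_smul A₁ hc₁ σ)⟩
    · obtain ⟨σ, _, rfl⟩ := Finset.mem_image.1 h
      exact ⟨gg_isPl_smul A₂ h₂ σ, gg_tX_mem _ (gg_isPl_smul A₂ h₂ σ) (gg_over_smul A₂ hc₂ σ)⟩
  have : Infinite k := IsAlgClosed.instInfinite
  obtain ⟨cc, hcc⟩ : ∃ cc : ValuationSubring F → k, ∀ A ∈ S, ∀ B ∈ S, cc A = cc B → A = B := by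
    refine ⟨fun A => if h : A ∈ S then Infinite.natEmbedding k (S.equivFin ⟨A, h⟩) else 0, ?_⟩
    intro A hA B hB hAB
    simp only [dif_pos hA, dif_pos hB] at hAB
    have h1 := (Infinite.natEmbedding k).injective hAB
    have h2 := S.equivFin.injective (Fin.ext h1)
    exact congrArg Subtype.val h2
  obtain ⟨y, hyint, hy, hyS⟩ := hresid S hS cc
  let _ : Algebra k[X] F := (pk k F).toAlgebra
  have : IsScalarTower k[X] (RatFunc k) F := IsScalarTower.of_algebraMap_eq fun _ => rfl
  have hint : IsIntegral k[X] y := hyint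
  have hpkinj : Function.Injective (pk k F) :=
    (algebraMap (RatFunc k) F).injective.comp (RatFunc.algebraMap_injective k)
  have : Module.IsTorsionFree k[X] F :=
    Module.isTorsionFree_iff_algebraMap_injective.2 hpkinj
  have hcc1 : ∀ σ τ : F ≃ₐ[RatFunc k] F, cc (σ • A₁) = cc (τ • A₁) → σ • A₁ = τ • A₁ :=
    fun σ τ h => hcc _ (hS1 σ) _ (hS1 τ) h
  have hcc2 : ∀ σ τ : F ≃ₐ[RatFunc k] F, cc (σ • A₂) = cc (τ • A₂) → σ • A₂ = τ • A₂ :=
    fun σ τ h => hcc _ (hS2 σ) _ (hS2 τ) h
  have hyc1 : ∀ σ : F ≃ₐ[RatFunc k] F, y - co k F (cc (σ • A₁)) ∈ (σ • A₁).nonunits :=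
    fun σ => hyS _ (hS1 σ)
  have hyc2 : ∀ σ : F ≃ₐ[RatFunc k] F, y - co k F (cc (σ • A₂)) ∈ (σ • A₂).nonunits :=
    fun σ => hyS _ (hS2 σ)
  have hyinj : Function.Injective (fun σ : F ≃ₐ[RatFunc k] F => σ y) := by
    intro σ τ h
    have h1 := gg_val A₁ y cc hyc1 σ
    have h2 := gg_val A₁ y cc hyc1 τ
    have h3 : σ y = τ y := h
    rw [← h3] at h2
    exact gg_dist hunr A₁ h₁ c₁ hc₁ cc hcc1 _ _ (gg_eq_of A₁ h₁ h1 h2)
  have hmin : minpoly (RatFunc k) y = (minpoly k[X] y).map (algebraMap k[X] (RatFunc k)) :=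
    minpoly.isIntegrallyClosed_eq_field_fractions' (RatFunc k) hint
  have hfint : IsIntegral (RatFunc k) y := Algebra.IsIntegral.isIntegral y
  have hfmap : (minpoly k[X] y).map (pk k F) = ∏ σ : F ≃ₐ[RatFunc k] F, (X - C (σ y)) := by
    have h1 : (minpoly k[X] y).map (pk k F) = (minpoly (RatFunc k) y).map
        (algebraMap (RatFunc k) F) := by
      rw [hmin, Polynomial.map_map]
      rfl
    rw [h1]
    refine Polynomial.eq_of_monic_of_dvd_of_natDegree_le
      (Polynomial.monic_prod_of_monic _ _ fun σ _ => monic_X_sub_C _)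
      ((minpoly.monic hfint).map _) ?_ ?_
    · apply Finset.prod_dvd_of_coprime
      · intro σ _ τ _ hστ
        exact Polynomial.pairwise_coprime_X_sub_C hyinj hστ
      · intro σ _
        rw [Polynomial.dvd_iff_isRoot, IsRoot.def, Polynomial.eval_map, ← Polynomial.aeval_def]
        have h2 := Polynomial.aeval_algHom_apply (σ : F →ₐ[RatFunc k] F) y (minpoly (RatFunc k) y)
        rw [minpoly.aeval, map_zero] at h2
        exact h2
    · rw [Polynomial.natDegree_map, Polynomial.natDegree_prod_of_monic _ _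
        (fun σ _ => monic_X_sub_C _)]
      simp only [natDegree_X_sub_C, Finset.sum_const, Finset.card_univ, smul_eq_mul, mul_one]
      rw [← Nat.card_eq_fintype_card, IsGalois.card_aut_eq_finrank]
      exact minpoly.natDegree_le y
  let e : Fin (Fintype.card (F ≃ₐ[RatFunc k] F)) ≃ (F ≃ₐ[RatFunc k] F) :=
    (Fintype.equivFin (F ≃ₐ[RatFunc k] F)).symm
  have hfe : (minpoly k[X] y).map (pk k F) = ∏ j, (X - C ((e j) y)) := by
    rw [hfmap, ← Equiv.prod_comp e]
  obtain ⟨a1, a2, a3, a4⟩ := gg_side hunr A₁ h₁ c₁ hc₁ y hy cc hcc1 hyc1 (minpoly k[X] y) e hfe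
  obtain ⟨b1, b2, b3, b4⟩ := gg_side hunr A₂ h₂ c₂ hc₂ y hy cc hcc2 hyc2 (minpoly k[X] y) e hfe
  refine ⟨Fintype.card (F ≃ₐ[RatFunc k] F), minpoly k[X] y, y, fun j => cc ((e j)⁻¹ • A₁),
    fun j => cc ((e j)⁻¹ • A₂), e.symm 1, e.symm 1, minpoly.monic hint, ?_,
    minpoly.irreducible hint, ?_, hy, a1, b1, a2, b2, a3, b3, a4, b4⟩
  · have h1 := (minpoly.monic hint).natDegree_map (pk k F)
    rw [← h1, hfmap, Polynomial.natDegree_prod_of_monic _ _ (fun σ _ => monic_X_sub_C _)]
    simp only [natDegree_X_sub_C, Finset.sum_const, Finset.card_univ, smul_eq_mul, mul_one]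
  · intro B
    exact minpoly.isIntegrallyClosed_dvd_iff hint B

end h8gg

end Pool.Agent.Helper54.SR
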